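import Pool.Agent.U964.SZ.Uni
import Pool.Agent.Y557.OE.Set
import Pool.Agent.H813R3.Abc.A

/-!
# The truncated counting function at sparse rational points of the line
-/

set_option autoImplicit false

namespace Pool.Agent.U964.SP

open Polynomial NumberField IsDedekindDomain Height Finset
open Pool.Agent.H691R3 (fv fv_na Nv two_le_Nv)
open Pool.Agent.H951R3.V (ell ell_pos)
open Pool.Agent.TH876.KR (form)
open Pool.Agent.Y728.AK (pK)
open Pool.Agent.Y728.MN (pt wt bdT bdT_fin Nr)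
open Pool.Agent.H813R3.Abc (pr pr_prime pr_inj dvd_iff fv_int_le)
open Pool.Agent.U964.SZ (Sp bf_core)

/-- the value at `x` of the form with the zeros `a j` -/
def gx {q : ℕ} (a : Fin q → ℚ) (x : ℚ) : ℤ :=
  ∏ j, ((a j).den * x.num - (a j).num * x.den)

/-- the polynomial with the zeros `a j` -/
noncomputable def gpol {q : ℕ} (a : Fin q → ℚ) : ℤ[X] :=
  ∏ j, (C ((a j).den : ℤ) * X - C (a j).num)

theorem lin_deg (b : ℚ) : (C (b.den : ℤ) * X - C b.num : ℤ[X]).natDegree = 1 := by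
  have h : (b.den : ℤ) ≠ 0 := by exact_mod_cast b.den_nz
  rw [natDegree_sub_C, natDegree_C_mul_X _ h]

theorem gpol_deg {q : ℕ} (a : Fin q → ℚ) : (gpol a).natDegree = q := by
  unfold gpol
  rw [natDegree_prod]
  · rw [Finset.sum_congr rfl fun j _ => lin_deg (a j), sum_const, card_univ, Fintype.card_fin]
    simp
  · intro j _ h
    have := lin_deg (a j)
    rw [h, natDegree_zero] at this
    omega

theorem gpol_map {q : ℕ} (a : Fin q → ℚ) : (gpol a).map (Int.castRingHom ℚ) =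
    C (∏ j, ((a j).den : ℚ)) * ∏ j, (X - C (a j)) := by
  unfold gpol
  rw [Polynomial.map_prod, map_prod, ← Finset.prod_mul_distrib]
  refine Finset.prod_congr rfl fun j _ => ?_
  rw [Polynomial.map_sub, Polynomial.map_mul, Polynomial.map_C, Polynomial.map_X, Polynomial.map_C,
    mul_sub, ← C_mul]
  congr 2
  · have h : (a j).num = (a j) * (a j).den := (Rat.mul_den_eq_num (a j)).symm
    rw [eq_intCast, h]
    ring

theorem gpol_sqf {q : ℕ} (a : Fin q → ℚ) (ha : Function.Injective a) :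
    Squarefree ((gpol a).map (Int.castRingHom ℚ)) := by
  rw [gpol_map]
  have h1 : (∏ j, (X - C (a j))).Separable := by
    rw [separable_prod_X_sub_C_iff]
    exact ha
  have h2 := h1.squarefree
  have hu : IsUnit (C (∏ j, ((a j).den : ℚ))) := by
    rw [isUnit_C, isUnit_iff_ne_zero, Finset.prod_ne_zero_iff]
    intro j _
    exact_mod_cast (a j).den_nz
  intro z hz
  exact h2 z ((hu.dvd_mul_left).mp hz)

theorem fv_gpol {q : ℕ} (a : Fin q → ℚ) (x : ℚ) :
    Pool.Agent.Y670.RD.fv q (gpol a) x.num x.den = gx a x := by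
  have hd : (x.den : ℤ) ≠ 0 := by exact_mod_cast x.den_nz
  have h := Pool.Agent.Y670.RD.fvq (N := q) (f := gpol a) (gpol_deg a).le (s := x.num) hd
  have hx : ((x.num : ℚ) / ((x.den : ℤ) : ℚ)) = x := by
    rw [Int.cast_natCast]; exact Rat.num_div_den x
  have h2 : ((gx a x : ℤ) : ℚ) = ((x.den : ℤ) : ℚ) ^ q * aeval x (gpol a) := by
    unfold gx gpol
    rw [map_prod]
    have : ((x.den : ℤ) : ℚ) ^ q = ∏ _j : Fin q, ((x.den : ℤ) : ℚ) := by
      rw [prod_const, card_univ, Fintype.card_fin]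
    rw [this, ← prod_mul_distrib]
    push_cast
    refine Finset.prod_congr rfl fun j _ => ?_
    rw [map_sub, map_mul, aeval_X, aeval_C, aeval_C]
    simp only [eq_intCast, Int.cast_natCast]
    have hn : (x.num : ℚ) = x * x.den := (Rat.mul_den_eq_num x).symm
    rw [hn]
    ring
  rw [hx] at h
  rw [← h2] at h
  exact_mod_cast h

theorem fv_pos' (v : HeightOneSpectrum (𝓞 ℚ)) {z : ℚ} (hz : z ≠ 0) : 0 < fv v z :=
  (fv v).pos hz

theorem max_num_den (v : HeightOneSpectrum (𝓞 ℚ)) (z : ℚ) :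
    max (fv v (z.num : ℚ)) (fv v (z.den : ℚ)) = 1 := by
  have h1 : fv v (z.num : ℚ) ≤ 1 := fv_int_le v z.num
  have h2 : fv v (z.den : ℚ) ≤ 1 := by
    have := fv_int_le v (z.den : ℤ)
    rwa [Int.cast_natCast] at this
  refine le_antisymm (max_le h1 h2) ?_
  have hcop : IsCoprime z.num (z.den : ℤ) := by
    rw [Int.isCoprime_iff_nat_coprime]
    simpa using z.reduced
  obtain ⟨p, w, hpw⟩ := hcop
  have h3 : (1 : ℚ) = (p : ℚ) * z.num + (w : ℚ) * z.den := by exact_mod_cast hpw.symm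
  have h4 : fv v (1 : ℚ) ≤ max (fv v ((p : ℚ) * z.num)) (fv v ((w : ℚ) * z.den)) := by
    rw [h3]; exact fv_na v _ _
  rw [map_one, map_mul, map_mul] at h4
  refine h4.trans (max_le_max ?_ ?_)
  · calc fv v (p : ℚ) * fv v (z.num : ℚ) ≤ 1 * fv v (z.num : ℚ) :=
        mul_le_mul_of_nonneg_right (fv_int_le v p) ((fv v).nonneg _)
      _ = _ := one_mul _
  · calc fv v (w : ℚ) * fv v (z.den : ℚ) ≤ 1 * fv v (z.den : ℚ) :=
        mul_le_mul_of_nonneg_right (fv_int_le v w) ((fv v).nonneg _)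
      _ = _ := one_mul _

theorem max_den (v : HeightOneSpectrum (𝓞 ℚ)) (z : ℚ) :
    max (fv v z) 1 * fv v (z.den : ℚ) = 1 := by
  have hd : (z.den : ℚ) ≠ 0 := by exact_mod_cast z.den_nz
  rw [max_mul_of_nonneg _ _ ((fv v).nonneg _), one_mul, ← map_mul, Rat.mul_den_eq_num]
  exact max_num_den v z

/-- the primes dividing the value are counted -/
theorem near (v : HeightOneSpectrum (𝓞 ℚ)) (b x : ℚ) (hx : x ≠ b)
    (h : ((pr v : ℕ) : ℤ) ∣ b.den * x.num - b.num * x.den) : Nr v (pK b) (pt x) := by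
  have hform : form (pK b) (pt x) = b - x := by
    unfold form pK pt
    simp
  have hne : b - x ≠ 0 := sub_ne_zero.mpr hx.symm
  have hpos : 0 < fv v (b - x) := fv_pos' v hne
  have hbd : 0 < fv v (b.den : ℚ) := fv_pos' v (by exact_mod_cast b.den_nz)
  have hxd : 0 < fv v (x.den : ℚ) := fv_pos' v (by exact_mod_cast x.den_nz)
  have h1 : fv v ((b.den * x.num - b.num * x.den : ℤ) : ℚ) < 1 := by
    rw [Pool.Agent.H813R3.Abc.fv_lt_iff]
    obtain ⟨c, hc⟩ := h
    rw [hc]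
    have h2 : ((pr v : ℕ) : 𝓞 ℚ) ∈ v.asIdeal := (dvd_iff v (pr v)).1 dvd_rfl
    push_cast
    exact Ideal.mul_mem_right _ _ h2
  have h2 : fv v (b - x) * (fv v (b.den : ℚ) * fv v (x.den : ℚ)) < 1 := by
    rw [← map_mul, ← map_mul]
    have e : (b - x) * ((b.den : ℚ) * x.den) =
        -((b.den * x.num - b.num * x.den : ℤ) : ℚ) := by
      push_cast
      have e1 : (x.num : ℚ) = x * x.den := (Rat.mul_den_eq_num x).symm
      have e2 : (b.num : ℚ) = b * b.den := (Rat.mul_den_eq_num b).symm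
      rw [e1, e2]
      ring
    rw [e, (fv v).map_neg]
    exact h1
  have h3 : fv v (b - x) < max (fv v b) 1 * max (fv v x) 1 := by
    have h4 : (max (fv v b) 1 * max (fv v x) 1) * (fv v (b.den : ℚ) * fv v (x.den : ℚ)) = 1 := by
      calc (max (fv v b) 1 * max (fv v x) 1) * (fv v (b.den : ℚ) * fv v (x.den : ℚ)) =
          (max (fv v b) 1 * fv v (b.den : ℚ)) * (max (fv v x) 1 * fv v (x.den : ℚ)) := by ring
        _ = 1 := by rw [max_den, max_den, one_mul]
    rw [← h4] at h2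
    exact lt_of_mul_lt_mul_right h2 (by positivity)
  unfold Nr Pool.Agent.TH876.KR.m2
  rw [hform]
  have e1 : pK b 0 = b := rfl
  have e2 : pK b 1 = 1 := rfl
  have e3 : pt x 0 = x := rfl
  have e4 : pt x 1 = 1 := rfl
  rw [e1, e2, e3, e4, map_one]
  exact h3

/-- the prime of `𝓞 ℚ` over `p` -/
theorem exists_pr (p : ℕ) (hp : p.Prime) : ∃ v : HeightOneSpectrum (𝓞 ℚ), pr v = p := by
  refine ⟨(Rat.HeightOneSpectrum.primesEquiv (R := 𝓞 ℚ)).symm ⟨p, hp⟩, ?_⟩
  have h := (Rat.HeightOneSpectrum.primesEquiv (R := 𝓞 ℚ)).apply_symm_apply ⟨p, hp⟩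
  exact congrArg Subtype.val h

theorem log_pr_le (v : HeightOneSpectrum (𝓞 ℚ)) : Real.log (pr v) ≤ ell v := by
  have h1 : ((pr v : ℕ) : 𝓞 ℚ) ∈ v.asIdeal := (dvd_iff v (pr v)).1 dvd_rfl
  have h2 : Ideal.absNorm v.asIdeal ∣ Ideal.absNorm (Ideal.span {((pr v : ℕ) : 𝓞 ℚ)}) :=
    Ideal.absNorm_dvd_absNorm_of_le ((Ideal.span_singleton_le_iff_mem _).mpr h1)
  rw [Ideal.absNorm_span_natCast, RingOfIntegers.rank, Module.finrank_self, pow_one] at h2
  have h3 : Ideal.absNorm v.asIdeal = pr v := by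
    rcases (Nat.dvd_prime (pr_prime v)).mp h2 with h | h
    · exfalso
      have := two_le_Nv v
      unfold Nv at this
      rw [h] at this
      norm_num at this
    · exact h
  unfold ell Nv
  rw [h3]

variable {q : ℕ}

/-- the radical is at most the truncated counting function -/
theorem rad_le_wt (a : Fin q → ℚ) (x : Fin 1 → ℚ) (hxa : ∀ j, x 0 ≠ a j)
    (hf : ∀ i j, form (pK (a j)) (pt (x i)) ≠ 0) (hx : Function.Injective x)
    (hG : ∀ p ∈ (∅ : Finset (Fin 1 × Fin 1)), p.1 < p.2) (S : Finset ℕ) :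
    Real.log ((∏ p ∈ (gx a (x 0)).natAbs.primeFactors \ S, p : ℕ) : ℝ) ≤
      wt (bdT_fin (S := ((∅ : Finset (HeightOneSpectrum (𝓞 ℚ))) : Set (HeightOneSpectrum (𝓞 ℚ))))
        (a := fun j => pK (a j)) hf hx univ hG).toFinset := by
  classical
  have hp : ∀ p ∈ (gx a (x 0)).natAbs.primeFactors \ S, p.Prime := fun p hp =>
    Nat.prime_of_mem_primeFactors (mem_sdiff.mp hp).1
  choose w hw using exists_pr
  have hw' : ∀ p : ℕ, ∃ v : HeightOneSpectrum (𝓞 ℚ), p.Prime → pr v = p := by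
    intro p
    by_cases h : p.Prime
    · exact ⟨w p h, fun _ => hw p h⟩
    · exact ⟨w 2 Nat.prime_two, fun h' => absurd h' h⟩
  choose W hW using hw'
  rw [Nat.cast_prod, Real.log_prod fun p h => by exact_mod_cast (hp p h).ne_zero]
  have hinj : Set.InjOn W ((gx a (x 0)).natAbs.primeFactors \ S : Finset ℕ) := by
    intro p1 h1 p2 h2 h
    rw [← hW p1 (hp p1 h1), ← hW p2 (hp p2 h2), h]
  calc ∑ p ∈ (gx a (x 0)).natAbs.primeFactors \ S, Real.log (p : ℝ) ≤
      ∑ p ∈ (gx a (x 0)).natAbs.primeFactors \ S, ell (W p) := by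
        refine sum_le_sum fun p h => ?_
        have := log_pr_le (W p)
        rwa [hW p (hp p h)] at this
    _ = ∑ v ∈ ((gx a (x 0)).natAbs.primeFactors \ S).image W, ell v :=
        (sum_image hinj).symm
    _ ≤ _ := by
        unfold wt
        refine sum_le_sum_of_subset_of_nonneg ?_ fun v _ _ => (ell_pos v).le
        intro v hv
        obtain ⟨p, h1, rfl⟩ := mem_image.mp hv
        rw [Set.Finite.mem_toFinset]
        refine ⟨by simp, Or.inl ?_⟩
        have hpd : (p : ℤ) ∣ gx a (x 0) :=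
          Int.natCast_dvd.mpr (Nat.dvd_of_mem_primeFactors (mem_sdiff.mp h1).1)
        unfold gx at hpd
        obtain ⟨j, -, hj⟩ := (Nat.prime_iff_prime_int.mp (hp p h1)).exists_mem_finset_dvd hpd
        refine ⟨(0, j), mem_univ _, ?_⟩
        refine near (W p) (a j) (x 0) (hxa j) ?_
        rw [hW p (hp p h1)]
        exact hj

/-- **the truncated counting function of the sparse points of the line** -/
theorem core (a : Fin q → ℚ) (ha : Function.Injective a) (hq : 2 ≤ q) (S : Finset ℕ)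
    (hS : ∀ p ∈ S, p.Prime) (l m : ℕ) (B ε : ℝ) (hε : 0 < ε) :
    ∃ (δ C : ℝ), 0 < δ ∧ ∀ (x : Fin 1 → ℚ) (hxa : ∀ j, x 0 ≠ a j)
      (hf : ∀ i j, form (pK (a j)) (pt (x i)) ≠ 0) (hx : Function.Injective x)
      (hG : ∀ p ∈ (∅ : Finset (Fin 1 × Fin 1)), p.1 < p.2) (k : ℕ) (τ : ℚ), 0 < k →
      ((k * ∏ p ∈ (gx a (x 0)).natAbs.primeFactors \ S, p : ℕ) : ℚ) ^ m = gx a (x 0) * τ →
      Sp S l (B * (max |((x 0).num : ℝ)| ((x 0).den : ℝ)) ^ δ) ((x 0).num : ℚ) →
      Sp S l (B * (max |((x 0).num : ℝ)| ((x 0).den : ℝ)) ^ δ) ((x 0).den : ℚ) →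
      Sp S l (B * (max |((x 0).num : ℝ)| ((x 0).den : ℝ)) ^ δ)
        ((k * ∏ p ∈ (gx a (x 0)).natAbs.primeFactors \ S, p : ℕ) : ℚ) →
      Sp S l (B * (max |((x 0).num : ℝ)| ((x 0).den : ℝ)) ^ δ) τ →
      ((q : ℝ) - 2 - ε) * logHeight₁ (x 0) ≤
        wt (bdT_fin (S := ((∅ : Finset (HeightOneSpectrum (𝓞 ℚ))) : Set (HeightOneSpectrum (𝓞 ℚ))))
          (a := fun j => pK (a j)) hf hx univ hG).toFinset + Real.log k + C := by
  classical
  obtain ⟨δ, C, hδ, hbf⟩ := bf_core ℚ (Module.finrank_self ℚ) (gpol a) q (gpol_deg a) hq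
    (gpol_sqf a ha) S hS l m B ε hε
  refine ⟨δ, |C|, hδ, ?_⟩
  intro x hxa hf hx hG k τ hk hτ h1 h2 h3 h4
  have hrad := rad_le_wt a x hxa hf hx hG S
  obtain ⟨R, hR⟩ : ∃ R : ℕ, R = ∏ p ∈ (gx a (x 0)).natAbs.primeFactors \ S, p := ⟨_, rfl⟩
  rw [← hR] at hrad hτ h3
  have hR0 : 0 < R := by
    rw [hR]
    exact prod_pos fun p hp => (Nat.prime_of_mem_primeFactors (mem_sdiff.mp hp).1).pos
  have hcop : IsCoprime (x 0).num ((x 0).den : ℤ) := by
    rw [Int.isCoprime_iff_nat_coprime]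
    simpa using (x 0).reduced
  have hden : |(((x 0).den : ℤ) : ℝ)| = ((x 0).den : ℝ) := by
    rw [Int.cast_natCast, Nat.abs_cast]
  have hb := hbf (x 0).num ((x 0).den : ℤ) hcop (k * R) τ (Nat.mul_pos hk hR0)
    (by rw [hτ, fv_gpol]) (fun i => by
      rw [hden]
      fin_cases i
      · exact h1
      · have : ((((x 0).den : ℤ)) : ℚ) = ((x 0).den : ℚ) := Int.cast_natCast _
        change ∃ (u : Fin l → ℚ) (k : Fin l → ℤ), _ ∧ _ ∧ ((((x 0).den : ℤ)) : ℚ) = _
        rw [this]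
        exact h2
      · exact h3
      · exact h4)
  rw [hden] at hb
  have hkR : (1 : ℝ) ≤ k := by exact_mod_cast hk
  have hRR : (1 : ℝ) ≤ R := by exact_mod_cast hR0
  have hlog : Real.log ((k * R : ℕ) : ℝ) = Real.log k + Real.log R := by
    push_cast
    rw [Real.log_mul (by linarith) (by linarith)]
  rw [hlog] at hb
  have hh : logHeight₁ (x 0) = Real.log (max |((x 0).num : ℝ)| ((x 0).den : ℝ)) := by
    rw [Rat.logHeight₁_eq_log_max]
    congr 1
    push_cast
    rw [Nat.cast_natAbs, Int.cast_abs]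
  rw [hh]
  have := le_abs_self C
  linarith

end Pool.Agent.U964.SP
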